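import Pool.Agent.Lib.MP_bae357_pr.Light.Moments
import Pool.Agent.Lib.MP_bae357_pr.Light.Laws
import Pool.Agent.Lib.MP_bae357_pr.Light.Events
import Pool.Agent.Lib.MP_bae357_pr.Exist
import Pool.Agent.Lib.MP_bae357_pr.Realize

/-!
# Degree-one vertices do not always destroy percolation in stable multi-matchings

There is a law `ν` on `{2, 3, ...}` with all moments finite such that in every dimension the
stable multi-matching with degree law `p δ₁ + (1 - p) ν` percolates for every `p < 1`.  So the
answer to Q1 is negative, in every dimension, even for a law all of whose moments are finite.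
-/

open MeasureTheory ProbabilityTheory Set Metric Filter
open scoped ENNReal

namespace Pool.Agent.Results.MP_bae357_pr.AllMomentsPercolate

open StableMM StableMM.Light

/-- The model with degree law `μ` in dimension `d` percolates almost surely: marked Poisson
processes with mark law `μ` exist, and for each of them, almost surely there is a stable
multi-matching and every stable multi-matching has an infinite connected component. -/
def PercolatesAS (d : ℕ) (μ : PMF ℕ) : Prop :=
  (∃ (Ω : Type) (_ : MeasurableSpace Ω) (P : Measure Ω) (Pts : Ω → Set (E d)) (D : Ω → E d → ℕ),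
    IsProbabilityMeasure P ∧ IsMarkedPoisson P Pts D μ) ∧
  ∀ (Ω : Type) (_ : MeasurableSpace Ω) (P : Measure Ω) (Pts : Ω → Set (E d)) (D : Ω → E d → ℕ),
    IsProbabilityMeasure P → IsMarkedPoisson P Pts D μ → ∀ᵐ ω ∂P,
      (∃ G : SimpleGraph (Pts ω), IsStableMultiMatching (Pts ω) (D ω) G) ∧
      ∀ G : SimpleGraph (Pts ω), IsStableMultiMatching (Pts ω) (D ω) G →
        ∃ c : G.ConnectedComponent, c.supp.Infinite

/-- **Theorem.** There is a law `ν` on `{2, 3, ...}` with all moments finite such that in every
dimension `d` and for every `p < 1` the stable multi-matching in `ℝ^d` with degree law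
`p δ₁ + (1 - p) ν` percolates almost surely. -/
theorem result :
    ∃ ν : PMF ℕ, ν 0 = 0 ∧ ν 1 = 0 ∧ AllMoments ν ∧
      ∀ d : ℕ, 1 ≤ d → ∀ (p : ℝ≥0∞) (hp : p < 1), PercolatesAS d (mix p hp.le ν) := by
  obtain ⟨ν, h20, h21, hm, hν⟩ := exists_law
  refine ⟨ν, h20, h21, hm, fun d hd p hp => ⟨?_, ?_⟩⟩
  · obtain ⟨P, hP, h⟩ := exists_isMarkedPoisson hd (mix p hp.le ν)
    exact ⟨Om d, inferInstance, P, pts, deg, hP, h⟩
  · intro Ω _ P Pts D _ h
    filter_upwards [ae_infinite hd (hν d hd) hp h, h.ae_locallyFinite] with ω hω hfin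
    exact ⟨exists_stable (Pts ω) (D ω) hfin, hω⟩

end Pool.Agent.Results.MP_bae357_pr.AllMomentsPercolate
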